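import Mathlib
import Pool.Agent.H60.ACN.Fin
import Pool.Agent.H72.ACN.UNI

/-!
# Finite weak hyperbolic dimension and finite dimensional asymptotic cones
-/

set_option autoImplicit false

namespace Pool.Agent.Results.MP_1c101a_gt.AsymptoticCones

/-- The union of the members of `U` is an `r`-disjoint union. -/
def RDisjoint {X : Type} [MetricSpace X] (r : ℝ) (U : Set (Set X)) : Prop :=
  ∀ P ∈ U, ∀ Q ∈ U, P ≠ Q → ∀ x ∈ P, ∀ y ∈ Q, r ≤ dist x y

/-- `W` is `(N,R)`-large scale doubling in `X`. -/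
def Doubling {X : Type} [MetricSpace X] (N : ℕ) (R : ℝ) (W : Set X) : Prop :=
  ∀ x : X, ∀ s : ℝ, R ≤ s →
    ∃ c : Fin N → X, W ∩ Metric.ball x (2 * s) ⊆ (⋃ i, Metric.ball (c i) s)

/-- The weak hyperbolic dimension of `X` is at most `n`. -/
def WHyperdimLE (X : Type) [MetricSpace X] (n : ℕ) : Prop :=
  ∀ r : ℝ, 0 < r → ∃ (N : ℕ) (R : ℝ) (W : Fin (n + 1) → Set (Set X)),
    (⋃ i, ⋃₀ W i) = Set.univ ∧ ∀ i, RDisjoint r (W i) ∧ ∀ P ∈ W i, Doubling N R P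

/-- The asymptotic dimension of `X` is less than `c`: for every `r` the space is the union of `c`
`r`-disjoint unions of uniformly bounded sets. -/
def AsdimLT (X : Type) [MetricSpace X] (c : ℕ) : Prop :=
  ∀ r : ℝ, 0 < r → ∃ (D : ℝ) (U : Fin c → Set (Set X)),
    (⋃ i, ⋃₀ U i) = Set.univ ∧ ∀ i, RDisjoint r (U i) ∧ ∀ P ∈ U i, ∀ x ∈ P, ∀ y ∈ P, dist x y ≤ D

/-- `K` has covering dimension at most `k`: every finite open cover has an open refinement such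
that no point lies in `k + 2` members. -/
def CovDimLE (K : Type) [TopologicalSpace K] (k : ℕ) : Prop :=
  ∀ U : Set (Set K), U.Finite → (∀ u ∈ U, IsOpen u) → ⋃₀ U = Set.univ →
    ∃ V : Set (Set K), (∀ v ∈ V, IsOpen v) ∧ ⋃₀ V = Set.univ ∧ (∀ v ∈ V, ∃ u ∈ U, v ⊆ u) ∧
      ∀ F : Finset (Set K), (F : Set (Set K)) ⊆ V → F.card = k + 2 → ∀ x, ∃ v ∈ F, x ∉ v

/-- `K` is asymptotically contained in `G`: there are `s n → ∞` and maps `φ n` of `K` to members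
of `G` such that `dist (φ n x) (φ n y) / s n → dist x y`, uniformly. -/
def AsymptoticallyIn {X : Type} [MetricSpace X] (K : Type) [MetricSpace K] (G : Set (Set X)) :
    Prop :=
  ∃ (s : ℕ → ℝ) (φ : ℕ → K → X), Filter.Tendsto s Filter.atTop Filter.atTop ∧
    (∀ n, ∃ A ∈ G, ∀ x, φ n x ∈ A) ∧
    ∀ ε : ℝ, 0 < ε → ∀ᶠ n in Filter.atTop, ∀ x y, |dist (φ n x) (φ n y) / s n - dist x y| ≤ ε

/-- The cone dimension of `G` is at most `k`. -/
def ConeDimLE {X : Type} [MetricSpace X] (k : ℕ) (G : Set (Set X)) : Prop :=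
  ∀ (K : Type) [MetricSpace K] [CompactSpace K], AsymptoticallyIn K G → CovDimLE K k

/-- The collection `E` of families is closed under 1-decomposition. -/
def Closed {X : Type} [MetricSpace X] (E : Set (Set (Set X))) : Prop :=
  ∀ G : Set (Set X),
    (∀ r : ℝ, 0 < r → ∃ Y ∈ E, ∀ A ∈ G, ∃ B : Fin 2 → Set X, A = (⋃ k, B k) ∧
      ∀ k, ∃ U : Set (Set X), ⋃₀ U = B k ∧ U ⊆ Y ∧ RDisjoint r U) → G ∈ E

/-- The family `F` has finite decomposition complexity. -/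
def FDC {X : Type} [MetricSpace X] (F : Set (Set X)) : Prop :=
  ∀ E : Set (Set (Set X)),
    (∀ G : Set (Set X), (∃ D : ℝ, ∀ A ∈ G, ∀ x ∈ A, ∀ y ∈ A, dist x y ≤ D) → G ∈ E) →
    Closed E → F ∈ E

/-- Finite decomposition complexity relative to the families of finite cone dimension. -/
def RelFDC {X : Type} [MetricSpace X] (F : Set (Set X)) : Prop :=
  ∀ E : Set (Set (Set X)), (∀ (k : ℕ) (G : Set (Set X)), ConeDimLE k G → G ∈ E) →
    Closed E → F ∈ E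

open Pool.Agent.H60.W Pool.Agent.H60.ACN

theorem result : ∀ (X : Type) [MetricSpace X],
    (∀ (n k : ℕ) (F : Set (Set X)),
      (∀ r : ℝ, 0 < r → ∃ (Y G : Set (Set X)) (N : ℕ) (R : ℝ), FDC Y ∧
        (∀ P ∈ G, Doubling N R P) ∧ ConeDimLE k G ∧
        ∀ A ∈ F, ∃ (V : Fin 2 → Set (Set X)) (W : Fin n → Set (Set X)),
          (∀ i, V i ⊆ Y ∧ RDisjoint r (V i)) ∧ (∀ i, W i ⊆ G ∧ RDisjoint r (W i)) ∧
          A = (⋃ i, ⋃₀ V i) ∪ (⋃ i, ⋃₀ W i)) → FDC F) ∧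
    (∀ n k : ℕ, WHyperdimLE X n → ConeDimLE k {(Set.univ : Set X)} →
      AsdimLT X ((k + 1) * (n + 1))) ∧
    ∀ n : ℕ, WHyperdimLE X n → ∀ F : Set (Set X), FDC F ↔ RelFDC F := by
  intro X _
  have hUNI : T_UNI0 := Pool.Agent.H72.ACN.UNI0
  refine ⟨fun n k F h => main hUNI h, fun n k hX hk r hr => ?_, fun n hX F =>
    ⟨relC_of_fd, fun hF => ?_⟩⟩
  · refine asdim (n := n + 1) (k := k) hUNI (fun r hr => ?_) r hr
    obtain ⟨N, R, W, hW1, hW2⟩ := hX r hr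
    refine ⟨{P | ∃ i, P ∈ W i}, N, R, ?_, CoD.mono hk ?_, W, fun i => ⟨fun P hP => ⟨i, hP⟩,
      (hW2 i).1⟩, hW1.symm⟩
    · rintro P ⟨i, hP⟩
      exact (hW2 i).2 P hP
    · intro A _
      exact ⟨Set.univ, rfl, Set.subset_univ A⟩
  · refine fd_of_relC hUNI (n := n + 1) (fun r hr => ?_) hF
    obtain ⟨N, R, W, hW1, hW2⟩ := hX r hr
    exact ⟨N, R, W, hW2, hW1.symm⟩

end Pool.Agent.Results.MP_1c101a_gt.AsymptoticCones
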