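import Mathlib
import Pool.Agent.H60.HX.Hyp

/-!
# Finite weak hyperbolic dimension and colourings with subpolynomial chains
-/

set_option autoImplicit false

namespace Pool.Agent.Results.MP_1c101a_gt.SubpolynomialChains

/-- The union of the members of `U` is an `r`-disjoint union. -/
def RDisjoint {X : Type} [MetricSpace X] (r : ℝ) (U : Set (Set X)) : Prop :=
  ∀ P ∈ U, ∀ Q ∈ U, P ≠ Q → ∀ x ∈ P, ∀ y ∈ Q, r ≤ dist x y

/-- `W` is `(N,R)`-large scale doubling in `X`. -/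
def Doubling {X : Type} [MetricSpace X] (N : ℕ) (R : ℝ) (W : Set X) : Prop :=
  ∀ x : X, ∀ s : ℝ, R ≤ s →
    ∃ c : Fin N → X, W ∩ Metric.ball x (2 * s) ⊆ (⋃ i, Metric.ball (c i) s)

/-- The weak hyperbolic dimension of `X` is at most `n`. -/
def WHyperdimLE (X : Type) [MetricSpace X] (n : ℕ) : Prop :=
  ∀ r : ℝ, 0 < r → ∃ (N : ℕ) (R : ℝ) (W : Fin (n + 1) → Set (Set X)),
    (⋃ i, ⋃₀ W i) = Set.univ ∧ ∀ i, RDisjoint r (W i) ∧ ∀ P ∈ W i, Doubling N R P

/-- The asymptotic dimension of `X` is less than `c`: for every `r` the space is the union of `c`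
`r`-disjoint unions of uniformly bounded sets. -/
def AsdimLT (X : Type) [MetricSpace X] (c : ℕ) : Prop :=
  ∀ r : ℝ, 0 < r → ∃ (D : ℝ) (U : Fin c → Set (Set X)),
    (⋃ i, ⋃₀ U i) = Set.univ ∧ ∀ i, RDisjoint r (U i) ∧ ∀ P ∈ U i, ∀ x ∈ P, ∀ y ∈ P, dist x y ≤ D

/-- The collection `E` of families is closed under 1-decomposition. -/
def Closed {X : Type} [MetricSpace X] (E : Set (Set (Set X))) : Prop :=
  ∀ G : Set (Set X),
    (∀ r : ℝ, 0 < r → ∃ Y ∈ E, ∀ A ∈ G, ∃ B : Fin 2 → Set X, A = (⋃ k, B k) ∧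
      ∀ k, ∃ U : Set (Set X), ⋃₀ U = B k ∧ U ⊆ Y ∧ RDisjoint r U) → G ∈ E

/-- The family `F` has finite decomposition complexity. -/
def FDC {X : Type} [MetricSpace X] (F : Set (Set X)) : Prop :=
  ∀ E : Set (Set (Set X)),
    (∀ G : Set (Set X), (∃ D : ℝ, ∀ A ∈ G, ∀ x ∈ A, ∀ y ∈ A, dist x y ≤ D) → G ∈ E) →
    Closed E → F ∈ E

/-- `k`-coloured subpolynomial chains: for every `ρ` the members of `G` have colourings with `k`
colours such that for all `ε > 0` there is `C` with: the ends of every monochromatic chain of `M`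
steps of length at most `ρ` in a member of `G` have distance at most `C (M + 1) ^ ε`. -/
def SubpolyChains {X : Type} [MetricSpace X] (k : ℕ) (G : Set (Set X)) : Prop :=
  ∀ ρ : ℝ, 0 < ρ → ∃ c : Set X → X → Fin k, ∀ ε : ℝ, 0 < ε → ∃ C : ℝ, ∀ A ∈ G, ∀ (M : ℕ)
    (x : ℕ → X), (∀ t ≤ M, x t ∈ A ∧ c A (x t) = c A (x 0)) →
    (∀ t < M, dist (x t) (x (t + 1)) ≤ ρ) → dist (x 0) (x M) ≤ C * ((M : ℝ) + 1) ^ ε

/-- Finite decomposition complexity relative to the families with subpolynomial chains. -/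
def RelFDC {X : Type} [MetricSpace X] (F : Set (Set X)) : Prop :=
  ∀ E : Set (Set (Set X)), (∀ (k : ℕ) (G : Set (Set X)), SubpolyChains k G → G ∈ E) →
    Closed E → F ∈ E

/-- `Y` is Gromov hyperbolic (four point condition with the constant `δ`). -/
def Hyperbolic (Y : Type) [MetricSpace Y] (δ : ℝ) : Prop :=
  ∀ x y z w : Y, dist x y + dist z w ≤ max (dist x z + dist y w) (dist x w + dist y z) + 2 * δ

/-- The members `A` of `G` are mapped to products of `m` `δ`-hyperbolic spaces, such that the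
distances `d` of points of `A` become at most `ρ d` and at least `σ d`, where
`σ s / log s → ∞` for `s → ∞`. -/
def HyperbolicTargets {X : Type} [MetricSpace X] (m : ℕ) (G : Set (Set X)) : Prop :=
  ∃ (δ : ℝ) (ρ σ : ℝ → ℝ), Monotone ρ ∧
    Filter.Tendsto (fun s => σ s / Real.log s) Filter.atTop Filter.atTop ∧
    ∀ A ∈ G, ∃ (Y : Fin m → Type) (_ : ∀ i, MetricSpace (Y i)) (f : ∀ i, X → Y i),
      (∀ i, Hyperbolic (Y i) δ) ∧ ∀ x ∈ A, ∀ y ∈ A, (∀ i, dist (f i x) (f i y) ≤ ρ (dist x y)) ∧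
        ∃ i, σ (dist x y) ≤ dist (f i x) (f i y)

open Pool.Agent.H60.W Pool.Agent.H60.HX

theorem result : ∀ (X : Type) [MetricSpace X] (n : ℕ), WHyperdimLE X n →
    (∀ k : ℕ, SubpolyChains k {(Set.univ : Set X)} → AsdimLT X (k * (n + 1))) ∧
    ((∃ c, AsdimLT X c) ↔ ∃ k, SubpolyChains k {(Set.univ : Set X)}) ∧
    (∀ F : Set (Set X), FDC F ↔ RelFDC F) ∧
    ∀ (m : ℕ) (G : Set (Set X)), HyperbolicTargets m G → SubpolyChains (2 ^ m) G := by
  intro X _ n hX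
  have h1 : ∀ k : ℕ, SubpolyChains k {(Set.univ : Set X)} → AsdimLT X (k * (n + 1)) := by
    intro k hk
    refine asdim_of_sub (n := n + 1) (k := k) (fun r hr => ?_) hk
    obtain ⟨N, R, W, hW1, hW2⟩ := hX r hr
    exact ⟨N, R, W, hW2, hW1.symm⟩
  refine ⟨h1, ⟨?_, ?_⟩, fun F => ⟨rel_of_fd, ?_⟩, ?_⟩
  · rintro ⟨c, hc⟩
    refine ⟨c + 1, sub_of_bdd (fun r hr => ?_) (Nat.succ_pos c)⟩
    obtain ⟨D, U, hU1, hU2⟩ := hc r hr
    refine ⟨D, fun A hA => ⟨Fin.cons ∅ U, ?_, fun i => ?_⟩⟩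
    · rw [Set.mem_singleton_iff.1 hA, ← hU1]
      ext x
      simp only [Set.mem_iUnion, Fin.exists_fin_succ, Fin.cons_zero, Fin.cons_succ,
        Set.sUnion_empty, Set.mem_empty_iff_false, false_or]
    · refine Fin.cases ?_ (fun i => ?_) i
      · rw [Fin.cons_zero]
        exact ⟨RD.empty r, by simp⟩
      · rw [Fin.cons_succ]
        exact hU2 i
  · rintro ⟨k, hk⟩
    exact ⟨_, h1 k hk⟩
  · intro hF
    refine mainS (n := n + 1) (fun r hr => ?_) hF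
    obtain ⟨N, R, W, hW1, hW2⟩ := hX r hr
    refine ⟨∅, FD.of_bdd ⟨0, by simp⟩, N, R, fun _ => ∅, W, fun k => ⟨subset_rfl, RD.empty r⟩,
      hW2, ?_⟩
    rw [hW1]
    simp
  · rintro m G ⟨δ, ρ, σ, hρ, hσ, hG⟩
    refine sub_of_emb ⟨δ, ρ, σ, hρ, hσ, fun A hA => ?_⟩
    obtain ⟨Y, hYi, f, hY, hf⟩ := hG A hA
    exact ⟨Y, fun i => inferInstance, f, hY, hf⟩

end Pool.Agent.Results.MP_1c101a_gt.SubpolynomialChains
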