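import Mathlib
import Pool.Agent.H60.W.Final

set_option autoImplicit false

namespace Pool.Agent.Results.MP_1c101a_gt.UniformColours

/-- The union of the members of `U` is an `r`-disjoint union: points of different members have
distance at least `r`. -/
def RDisjoint {X : Type} [MetricSpace X] (r : ℝ) (U : Set (Set X)) : Prop :=
  ∀ P ∈ U, ∀ Q ∈ U, P ≠ Q → ∀ x ∈ P, ∀ y ∈ Q, r ≤ dist x y

/-- `W` is `(N,R)`-large scale doubling in `X`. -/
def Doubling {X : Type} [MetricSpace X] (N : ℕ) (R : ℝ) (W : Set X) : Prop :=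
  ∀ x : X, ∀ s : ℝ, R ≤ s →
    ∃ c : Fin N → X, W ∩ Metric.ball x (2 * s) ⊆ (⋃ i, Metric.ball (c i) s)

/-- The family `F` of subsets of `X` has finite decomposition complexity: it lies in every
collection of families that contains the bounded ones and is closed under 1-decomposition. -/
def FDC {X : Type} [MetricSpace X] (F : Set (Set X)) : Prop :=
  ∀ E : Set (Set (Set X)),
    (∀ G : Set (Set X), (∃ D : ℝ, ∀ A ∈ G, ∀ x ∈ A, ∀ y ∈ A, dist x y ≤ D) → G ∈ E) →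
    (∀ G : Set (Set X),
      (∀ r : ℝ, 0 < r → ∃ Y ∈ E, ∀ A ∈ G, ∃ B : Fin 2 → Set X, A = (⋃ k, B k) ∧
        ∀ k, ∃ U : Set (Set X), ⋃₀ U = B k ∧ U ⊆ Y ∧ RDisjoint r U) → G ∈ E) →
    F ∈ E

theorem result : ∀ (X : Type) [MetricSpace X] (F : Set (Set X)),
    (∃ n N : ℕ, ∀ r : ℝ, 0 < r → ∃ Y : Set (Set X),
      (FDC Y ∨ ∃ M : ℕ, ∃ S : ℝ, ∀ A ∈ Y, Doubling M S A) ∧ ∃ R : ℝ, ∀ A ∈ F,
        ∃ (V : Fin 2 → Set (Set X)) (W : Fin n → Set (Set X)),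
          A = (⋃ k, ⋃₀ V k) ∪ (⋃ k, ⋃₀ W k) ∧ (∀ k, V k ⊆ Y ∧ RDisjoint r (V k)) ∧
          ∀ k, RDisjoint r (W k) ∧ ∀ P ∈ W k, Doubling N R P) →
    FDC F := by
  rintro X _ F ⟨n, N, h⟩
  refine Pool.Agent.H60.W.main_fd (n := n) (N := N) fun r hr => ?_
  obtain ⟨Y, hY, R, hR⟩ := h r hr
  refine ⟨Y, ?_, R, fun A hA => ?_⟩
  · rcases hY with hY | ⟨M, S, hY⟩
    · exact hY
    · exact Pool.Agent.H60.W.fd_of_lsd hY
  · obtain ⟨V, W, h1, h2, h3⟩ := hR A hA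
    exact ⟨V, W, h2, h3, h1⟩

end Pool.Agent.Results.MP_1c101a_gt.UniformColours
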